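import Pool.Agent.helper95.PY2.Spec2
import Pool.Agent.helper75.PY2.FINM

/-! Row pe:FE: Moebius images of intervals, local energy. -/

set_option autoImplicit false

open Finset

namespace Pool.Agent.PY2

theorem FE_num (m : ℝ) (hm : 0 < m) : ∃ p₁ : ℕ, ∀ p : ℕ, p₁ < p → 4 ≤ (p : ℝ) ^ m := by
  refine ⟨⌈(4 : ℝ) ^ (1 / m)⌉₊, fun p hp => ?_⟩
  have hp2 : (4 : ℝ) ^ (1 / m) ≤ p := by
    have h1 := Nat.le_ceil ((4 : ℝ) ^ (1 / m))
    have h2 : ((⌈(4 : ℝ) ^ (1 / m)⌉₊ : ℕ) : ℝ) ≤ p := by exact_mod_cast hp.le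
    linarith
  have h4 : ((4 : ℝ) ^ (1 / m)) ^ m = 4 := by
    rw [← Real.rpow_mul (by norm_num)]
    have : 1 / m * m = 1 := by field_simp
    rw [this, Real.rpow_one]
  calc (4 : ℝ) = ((4 : ℝ) ^ (1 / m)) ^ m := h4.symm
    _ ≤ (p : ℝ) ^ m := Real.rpow_le_rpow (by positivity) hp2 (by positivity)

theorem FE (h1 : INE_stmt) (h2 : FINM_stmt) : FE_stmt := by
  intro ε hε
  by_cases hε1 : 1 < ε
  · -- nothing to prove
    refine ⟨1, one_pos, 1, ?_⟩
    intro p hp hpp A B a b c d N hdet hNp hA hN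
    exfalso
    have hp0 : (1 : ℝ) ≤ p := by exact_mod_cast hp.out.one_lt.le
    have h3 : (p : ℝ) ≤ (p : ℝ) ^ ε := by
      calc (p : ℝ) = (p : ℝ) ^ (1 : ℝ) := (Real.rpow_one _).symm
        _ ≤ (p : ℝ) ^ ε := Real.rpow_le_rpow_of_exponent_le hp0 hε1.le
    have h4 : (N : ℝ) < p := by exact_mod_cast hNp
    linarith
  rw [not_lt] at hε1
  obtain ⟨δ₀, hδ₀, p₀, hF⟩ := h1 (ε / 2) (by linarith) (by linarith)
  obtain ⟨δ₂, hδ₂, p₂, hF2⟩ := h2 ε hε
  have hm : 0 < min (min δ₀ ε) δ₂ := lt_min (lt_min hδ₀ hε) hδ₂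
  set μ : ℝ := min (min δ₀ ε) δ₂ with hμ
  have hμ0 : μ ≤ δ₀ := (min_le_left _ _).trans (min_le_left _ _)
  have hμε : μ ≤ ε := (min_le_left _ _).trans (min_le_right _ _)
  have hμ2 : μ ≤ δ₂ := min_le_right _ _
  obtain ⟨p₁, hp₁⟩ := FE_num (μ / 2) (by linarith)
  refine ⟨μ / 2, by linarith, max (max p₀ p₂) p₁, ?_⟩
  intro p hp hpp A B a b c d N hdet hNp hA hN hB hloc χ hχ β hβ
  have n2 := hp₁ p ((le_max_right _ _).trans_lt hpp)
  have hp0 : (0 : ℝ) < p := by exact_mod_cast hp.out.pos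
  have hp1 : (1 : ℝ) ≤ p := by exact_mod_cast hp.out.one_lt.le
  have n1 : 4 ≤ (p : ℝ) ^ (ε / 2) :=
    n2.trans (Real.rpow_le_rpow_of_exponent_le hp1 (by linarith))
  have hN0 : (0 : ℝ) ≤ N := Nat.cast_nonneg _
  by_cases hNs : N ^ 2 ≤ p
  swap
  · -- long intervals: FINM
    rw [not_le] at hNs
    have h3 : (p : ℝ) ^ (1 / 2 + ε) ≤ N * B.card := by
      rw [Real.rpow_add hp0]
      refine mul_le_mul ?_ hB (by positivity) hN0
      rw [← Real.sqrt_eq_rpow]
      refine Real.sqrt_le_iff.mpr ⟨hN0, ?_⟩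
      exact_mod_cast hNs.le
    have h4 := hF2 p (((le_max_right _ _).trans (le_max_left _ _)).trans_lt hpp) A B a b c d N hdet hNp hA hN hB
      h3 χ hχ β hβ
    refine h4.trans ?_
    have h5 : (p : ℝ) ^ (-δ₂) ≤ (p : ℝ) ^ (-(μ / 2)) :=
      Real.rpow_le_rpow_of_exponent_le hp1 (by linarith)
    gcongr
  have hFp := hF p (((le_max_left _ _).trans (le_max_left _ _)).trans_lt hpp)
  -- choose `n`
  choose! n hnN hnd hnz using hA
  set B₁ : Finset (ZMod p) := B.filter (fun w => a + c * w ≠ 0) with hB₁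
  set g : ZMod p → ZMod p := fun w => (b + d * w) / (a + c * w) with hg
  have hginj : Set.InjOn g (B₁ : Set (ZMod p)) := by
    intro w hw v hv he
    have hw' := (mem_filter.mp (mem_coe.mp hw)).2
    have hv' := (mem_filter.mp (mem_coe.mp hv)).2
    exact FINM_inj a b c d w v hdet hw' hv' he
  have hBcard : B.card ≤ B₁.card + 1 := by
    have h2 : (B.filter (fun w => ¬ (a + c * w ≠ 0))).card ≤ 1 := by
      rw [card_le_one]
      intro x hx y hy
      have hx' := (mem_filter.mp hx).2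
      have hy' := (mem_filter.mp hy).2
      rw [not_not] at hx' hy'
      have h3 : c * (x - y) = 0 := by linear_combination hx' - hy'
      rcases mul_eq_zero.mp h3 with h4 | h4
      · exfalso
        rw [h4, zero_mul, add_zero] at hx'
        apply hdet
        rw [h4, hx']
        ring
      · exact sub_eq_zero.mp h4
    have h5 : B₁.card + (B.filter (fun w => ¬ (a + c * w ≠ 0))).card = B.card :=
      card_filter_add_card_filter_not (s := B) (fun w => a + c * w ≠ 0)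
    omega
  set B' : Finset (ZMod p) := B₁.image g with hB'
  have hB'card : B'.card = B₁.card := card_image_of_injOn hginj
  set β' : ZMod p → ℂ := fun y => β (Function.invFunOn g (B₁ : Set (ZMod p)) y) *
    χ (a + c * Function.invFunOn g (B₁ : Set (ZMod p)) y) with hβ'
  have hβ'1 : ∀ y, ‖β' y‖ ≤ 1 := by
    intro y
    rw [hβ']
    simp only [norm_mul]
    exact mul_le_one₀ (hβ _) (norm_nonneg _) (FINM_norm χ _)
  have hinv : ∀ w ∈ B₁, Function.invFunOn g (B₁ : Set (ZMod p)) (g w) = w := by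
    intro w hw
    exact hginj.leftInvOn_invFunOn (mem_coe.mpr hw)
  -- the map `z ↦ n z` is injective on `A`
  have hninj : Set.InjOn n (A : Set (ZMod p)) := by
    intro z hz y hy he
    have hz' := mem_coe.mp hz
    have hy' := mem_coe.mp hy
    rw [hnz z hz', hnz y hy', he]
  have hAsub : A.image n ⊆ range N := by
    intro x hx
    rw [mem_image] at hx
    obtain ⟨z, hz, rfl⟩ := hx
    exact mem_range.mpr (hnN z hz)
  have hAN : A.card ≤ N := by
    have h2 : (A.image n).card = A.card := card_image_of_injOn hninj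
    rw [← h2]
    exact (card_le_card hAsub).trans (card_range N).le
  -- pointwise bound
  have hpt : ∀ z ∈ A, ‖∑ w ∈ B, β w * χ (z + w)‖ ≤
      ‖∑ y ∈ B', β' y * χ (((n z : ℕ) : ZMod p) + y)‖ + 1 := by
    intro z hz
    have hsplit : ∑ w ∈ B, β w * χ (z + w) = ∑ w ∈ B₁, β w * χ (z + w) +
        ∑ w ∈ B.filter (fun w => ¬ (a + c * w ≠ 0)), β w * χ (z + w) :=
      (sum_filter_add_sum_filter_not B _ _).symm
    have e1 : ∑ w ∈ B₁, β w * χ (z + w) = χ ((c * (n z : ZMod p) + d)⁻¹) *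
        ∑ y ∈ B', β' y * χ (((n z : ℕ) : ZMod p) + y) := by
      rw [hB', sum_image hginj, mul_sum]
      apply sum_congr rfl
      intro w hw
      have hw' := (mem_filter.mp hw).2
      have e2 := FINM_point χ a b c d (n z : ZMod p) w (hnd z hz) hw'
      rw [← hnz z hz] at e2
      rw [e2, hβ']
      simp only [hinv w hw]
      rw [hg]
      ring
    have e3 : ‖∑ w ∈ B₁, β w * χ (z + w)‖ ≤
        ‖∑ y ∈ B', β' y * χ (((n z : ℕ) : ZMod p) + y)‖ := by
      rw [e1, norm_mul]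
      exact mul_le_of_le_one_left (norm_nonneg _) (FINM_norm χ _)
    have e4 : ‖∑ w ∈ B.filter (fun w => ¬ (a + c * w ≠ 0)), β w * χ (z + w)‖ ≤ 1 := by
      have h5 : B₁.card + (B.filter (fun w => ¬ (a + c * w ≠ 0))).card = B.card :=
        card_filter_add_card_filter_not (s := B) (fun w => a + c * w ≠ 0)
      have h6 : ((B.filter (fun w => ¬ (a + c * w ≠ 0))).card : ℝ) ≤ 1 := by
        have : (B.filter (fun w => ¬ (a + c * w ≠ 0))).card ≤ 1 := by omega
        exact_mod_cast this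
      calc ‖∑ w ∈ B.filter (fun w => ¬ (a + c * w ≠ 0)), β w * χ (z + w)‖
          ≤ ∑ w ∈ B.filter (fun w => ¬ (a + c * w ≠ 0)), ‖β w * χ (z + w)‖ := norm_sum_le _ _
        _ ≤ ∑ w ∈ B.filter (fun w => ¬ (a + c * w ≠ 0)), (1 : ℝ) := by
            apply sum_le_sum
            intro w _
            rw [norm_mul]
            exact mul_le_one₀ (hβ w) (norm_nonneg _) (FINM_norm χ _)
        _ = ((B.filter (fun w => ¬ (a + c * w ≠ 0))).card : ℝ) := by simp
        _ ≤ 1 := h6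
    rw [hsplit]
    exact (norm_add_le _ _).trans (add_le_add e3 e4)
  -- conditions of INE
  have hx : (p : ℝ) ^ ε = (p : ℝ) ^ (ε / 2) * (p : ℝ) ^ (ε / 2) := by
    rw [← Real.rpow_add hp0]; congr 1; ring
  have hBr : (B.card : ℝ) ≤ B₁.card + 1 := by exact_mod_cast hBcard
  have c1 : (p : ℝ) ^ (ε / 2) ≤ N := by
    refine le_trans ?_ hN
    rw [hx]
    exact le_mul_of_one_le_right (by positivity) (by linarith)
  have h2B : (B.card : ℝ) ≤ 2 * B'.card := by
    have h3 : (4 : ℝ) * 1 ≤ (p : ℝ) ^ ε := by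
      rw [hx]
      exact mul_le_mul n1 (by linarith) (by norm_num) (by positivity)
    rw [hB'card]
    linarith
  have c3 : (p : ℝ) ^ (1 / 2 + ε / 2) * loc B' N ≤ N * (B'.card : ℝ) ^ 2 := by
    have e5 : (p : ℝ) ^ (1 / 2 + ε) = (p : ℝ) ^ (ε / 2) * (p : ℝ) ^ (1 / 2 + ε / 2) := by
      rw [← Real.rpow_add hp0]; congr 1; ring
    have hl0 : 0 ≤ loc B' N := by
      unfold loc
      exact sum_nonneg fun x _ => by positivity
    have h5 : 4 * ((p : ℝ) ^ (1 / 2 + ε / 2) * loc B' N) ≤ (p : ℝ) ^ (1 / 2 + ε) * loc B' N := by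
      rw [e5, mul_assoc]
      exact mul_le_mul_of_nonneg_right n1 (by positivity)
    have h6 : (N : ℝ) * (B.card : ℝ) ^ 2 ≤ N * (2 * B'.card) ^ 2 := by gcongr
    have h7 : (N : ℝ) * (2 * B'.card) ^ 2 = 4 * (N * (B'.card : ℝ) ^ 2) := by ring
    linarith
  have hmain := hFp N B' c1 hNs c3 χ hχ β' hβ'1
  have hmain' : ∑ z ∈ A, ‖∑ y ∈ B', β' y * χ (((n z : ℕ) : ZMod p) + y)‖ ≤
      (p : ℝ) ^ (-δ₀) * N * B'.card := by
    refine le_trans ?_ hmain
    calc ∑ z ∈ A, ‖∑ y ∈ B', β' y * χ (((n z : ℕ) : ZMod p) + y)‖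
        = ∑ m ∈ A.image n, ‖∑ y ∈ B', β' y * χ (((m : ℕ) : ZMod p) + y)‖ := by
          rw [sum_image hninj]
      _ ≤ ∑ m ∈ range N, ‖∑ y ∈ B', β' y * χ (((m : ℕ) : ZMod p) + y)‖ :=
          sum_le_sum_of_subset_of_nonneg hAsub fun _ _ _ => norm_nonneg _
  have hsum : ∑ z ∈ A, ‖∑ w ∈ B, β w * χ (z + w)‖ ≤ (p : ℝ) ^ (-δ₀) * N * B'.card + N := by
    calc ∑ z ∈ A, ‖∑ w ∈ B, β w * χ (z + w)‖
        ≤ ∑ z ∈ A, (‖∑ y ∈ B', β' y * χ (((n z : ℕ) : ZMod p) + y)‖ + 1) :=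
          sum_le_sum hpt
      _ = ∑ z ∈ A, ‖∑ y ∈ B', β' y * χ (((n z : ℕ) : ZMod p) + y)‖ + A.card := by
          rw [sum_add_distrib]; simp
      _ ≤ (p : ℝ) ^ (-δ₀) * N * B'.card + N := by
          have : (A.card : ℝ) ≤ N := by exact_mod_cast hAN
          exact add_le_add hmain' this
  refine hsum.trans ?_
  have hB1B : (B'.card : ℝ) ≤ B.card := by
    rw [hB'card]
    have : B₁.card ≤ B.card := card_filter_le _ _
    exact_mod_cast this
  have m1 : (p : ℝ) ^ (-δ₀) ≤ (p : ℝ) ^ (-μ) :=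
    Real.rpow_le_rpow_of_exponent_le hp1 (by linarith)
  have m2 : 1 ≤ (p : ℝ) ^ (-μ) * B.card := by
    have h2 : (p : ℝ) ^ (-ε) * (p : ℝ) ^ ε = 1 := by
      rw [← Real.rpow_add hp0]; simp
    have h3 : (p : ℝ) ^ (-ε) ≤ (p : ℝ) ^ (-μ) :=
      Real.rpow_le_rpow_of_exponent_le hp1 (by linarith)
    rw [← h2]
    exact mul_le_mul h3 hB (by positivity) (by positivity)
  have m3 : 2 * (p : ℝ) ^ (-μ) ≤ (p : ℝ) ^ (-(μ / 2)) := by
    have : (p : ℝ) ^ (-(μ / 2)) = (p : ℝ) ^ (μ / 2) * (p : ℝ) ^ (-μ) := by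
      rw [← Real.rpow_add hp0]; congr 1; ring
    rw [this]
    exact mul_le_mul_of_nonneg_right (by linarith) (by positivity)
  calc (p : ℝ) ^ (-δ₀) * N * B'.card + N
      ≤ (p : ℝ) ^ (-μ) * N * B.card + (p : ℝ) ^ (-μ) * N * B.card := by
        apply add_le_add
        · exact mul_le_mul (mul_le_mul_of_nonneg_right m1 hN0) hB1B (Nat.cast_nonneg _)
            (by positivity)
        · calc (N : ℝ) = N * 1 := (mul_one _).symm
            _ ≤ N * ((p : ℝ) ^ (-μ) * B.card) := mul_le_mul_of_nonneg_left m2 hN0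
            _ = (p : ℝ) ^ (-μ) * N * B.card := by ring
    _ = 2 * (p : ℝ) ^ (-μ) * (N * B.card) := by ring
    _ ≤ (p : ℝ) ^ (-(μ / 2)) * (N * B.card) :=
        mul_le_mul_of_nonneg_right m3 (by positivity)
    _ = (p : ℝ) ^ (-(μ / 2)) * N * B.card := by ring

end Pool.Agent.PY2
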