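import Pool.Agent.helper95.PY2.Spec2

set_option autoImplicit false

open Finset

namespace Pool.Agent.PY2

theorem RHE_sum {p : ℕ} [Fact p.Prime] (B : Finset (ZMod p)) (L j : ℕ) :
    ∑ h ∈ Icc 1 L, ((pr B L j).filter fun z => z.2.val = z.1.val + h).card ^ 2 ≤ en (cl B L j) := by
  have e1 : ∑ h ∈ Icc 1 L, ((pr B L j).filter fun z => z.2.val = z.1.val + h).card ^ 2 =
      ((Icc 1 L).biUnion fun h => ((pr B L j).filter fun z => z.2.val = z.1.val + h) ×ˢ
        ((pr B L j).filter fun z => z.2.val = z.1.val + h)).card := by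
    rw [card_biUnion]
    · refine sum_congr rfl fun h _ => ?_
      rw [card_product, sq]
    · intro h _ h' _ hne
      refine Finset.disjoint_left.mpr ?_
      rintro ⟨z, w⟩ hz hz'
      rw [mem_product] at hz hz'
      have h1 := (mem_filter.mp hz.1).2
      have h2 := (mem_filter.mp hz'.1).2
      apply hne
      omega
  rw [e1]
  unfold en
  apply card_le_card
  intro w hw
  rw [mem_biUnion] at hw
  obtain ⟨h, _, hw⟩ := hw
  rw [mem_product] at hw
  obtain ⟨hw1, hw2⟩ := hw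
  rw [mem_filter] at hw1 hw2
  obtain ⟨hp1, hv1⟩ := hw1
  obtain ⟨hp2, hv2⟩ := hw2
  unfold pr at hp1 hp2
  rw [mem_filter] at hp1 hp2
  rw [mem_filter, mem_product]
  refine ⟨⟨hp1.1, hp2.1⟩, ?_⟩
  have key : ∀ z : ZMod p × ZMod p, z.2.val = z.1.val + h → z.1 - z.2 = -(h : ZMod p) := by
    intro z hz
    have h1 : (z.2 : ZMod p) = z.1 + (h : ZMod p) := by
      rw [← ZMod.natCast_zmod_val z.2, ← ZMod.natCast_zmod_val z.1, hz]
      push_cast
      simp
    rw [h1]; ring
  rw [key _ hv1, key _ hv2]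

theorem RHE : RHE_stmt := by
  intro p _ L B hL
  rw [sum_comm]
  refine sum_le_sum fun j _ => ?_
  have e1 : ∑ h ∈ Icc 1 L, rho B L j h ^ 2 = ((((cl B L j).card : ℝ)⁻¹) ^ 2) *
      ((∑ h ∈ Icc 1 L, ((pr B L j).filter fun z => z.2.val = z.1.val + h).card ^ 2 : ℕ) : ℝ) := by
    push_cast
    rw [mul_sum]
    refine sum_congr rfl fun h _ => ?_
    unfold rho
    rw [mul_pow]
  rw [e1, div_eq_inv_mul, inv_pow]
  refine mul_le_mul_of_nonneg_left ?_ (by positivity)
  exact_mod_cast RHE_sum B L j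

end Pool.Agent.PY2
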