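import Pool.Agent.helper95.PY2.Spec

set_option autoImplicit false

open Finset

namespace Pool.Agent.PY2

theorem COL68_wf_nonneg {p : ℕ} [NeZero p] (R : ℕ) (y : ZMod p) : 0 ≤ wf R y := by
  unfold wf; positivity

theorem COL68_FF_nonneg (h5 : RHO_stmt) {p : ℕ} [Fact p.Prime] (B : Finset (ZMod p)) (L R h : ℕ) (hL : 1 ≤ L)
    (y : ZMod p) : 0 ≤ FF B L R h y := by
  unfold FF
  exact Finset.sum_nonneg fun j _ => mul_nonneg ((h5 p L B hL).1 j h).1 (COL68_wf_nonneg _ _)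

theorem COL68 (h1 : DIL_stmt) (h2 : WSUM_stmt) (h3 : WTOT_stmt) (h4 : NUB_stmt) (h5 : RHO_stmt)
    (h6 : PAR_stmt) (h7 : MASS_stmt) : COL_stmt := by
  intro p _ N L T B hL hLN hNp hT
  have hp0 : 0 < p := (Fact.out : p.Prime).pos
  have hN : 1 ≤ N := le_trans hL hLN
  set R : ℕ := p / (12 * N) with hR
  have hR2 : 2 ≤ R := by
    rw [hR, Nat.le_div_iff_mul_le (by omega)]
    omega
  have hRp : 12 * N * R ≤ p := by rw [hR]; exact Nat.mul_div_le p (12 * N)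
  have hpR : p ≤ 24 * N * R := by
    have h8 : p < 12 * N * (R + 1) := by
      rw [hR]; exact Nat.lt_mul_div_succ p (by omega)
    nlinarith
  have hLR : 2 * (L * R) < p := by nlinarith
  have h2R : 2 * R ≤ p := by nlinarith
  have hRlep : R ≤ p := by omega
  have hRpos : (0 : ℝ) < R := by exact_mod_cast (by omega : 0 < R)
  have hppos : (0 : ℝ) < p := by exact_mod_cast hp0
  have hNpos : (0 : ℝ) < N := by exact_mod_cast (by omega : 0 < N)
  have hLpos : (0 : ℝ) < L := by exact_mod_cast (by omega : 0 < L)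
  have hpRr : (p : ℝ) ≤ 24 * N * R := by exact_mod_cast hpR
  choose a ha ha0 hapar using fun h => h6 p L R h B hL (by omega) h2R
  have hbR := h5 p L B hL
  -- pointwise bound
  have hpt : ∀ x : ZMod p, nu B N L x ^ 2 ≤
      ‖∑ h ∈ Icc 1 L, ∑ f ∈ Ioo (-(R : ℤ)) R, a h f * ps ((h : ZMod p) * (f : ZMod p) * x)‖ ^ 2 := by
    intro x
    have e1 : ∑ h ∈ Icc 1 L, ∑ f ∈ Ioo (-(R : ℤ)) R, a h f * ps ((h : ZMod p) * (f : ZMod p) * x) =
        ((∑ h ∈ Icc 1 L, FF B L R h ((h : ZMod p) * x) : ℝ) : ℂ) := by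
      push_cast
      refine Finset.sum_congr rfl fun h _ => ?_
      rw [ha h ((h : ZMod p) * x)]
      refine Finset.sum_congr rfl fun f _ => ?_
      congr 2
      ring
    rw [e1, Complex.norm_real]
    have h0 : 0 ≤ nu B N L x := (h7 p N L B hL).1 x
    have h9 := h4 p N L R B x hL hLN (by omega) hRp
    have h10 : 0 ≤ ∑ h ∈ Icc 1 L, FF B L R h ((h : ZMod p) * x) := le_trans h0 h9
    rw [Real.norm_of_nonneg h10]
    exact pow_le_pow_left₀ h0 h9 2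
  have hd := h1 p L R T a (by omega) hLR (fun n hn1 hn2 => hT n hn1 (by
    have : L * R ≤ p := by omega
    omega))
  -- first term
  have hF1 : (p : ℝ) * ‖∑ h ∈ Icc 1 L, a h 0‖ ^ 2 ≤ 10 ^ 4 * (N : ℝ) ^ 2 * (B.card : ℝ) ^ 2 / p := by
    have e2 : ∑ h ∈ Icc 1 L, a h 0 =
        ((4 / R * ∑ h ∈ Icc 1 L, ∑ j ∈ range (p / L + 1), rho B L j h : ℝ) : ℂ) := by
      rw [Finset.mul_sum]
      push_cast
      refine Finset.sum_congr rfl fun h _ => ?_
      rw [ha0 h]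
      push_cast
      ring
    have hs0 : 0 ≤ ∑ h ∈ Icc 1 L, ∑ j ∈ range (p / L + 1), rho B L j h :=
      Finset.sum_nonneg fun h _ => Finset.sum_nonneg fun j _ => (hbR.1 j h).1
    rw [e2, Complex.norm_real, Real.norm_of_nonneg (by positivity)]
    have hs1 := hbR.2
    have h11 : 4 / (R : ℝ) * ∑ h ∈ Icc 1 L, ∑ j ∈ range (p / L + 1), rho B L j h ≤ 96 * N / p * B.card := by
      have h12 : 4 / (R : ℝ) ≤ 96 * N / p := by
        rw [div_le_div_iff₀ hRpos hppos]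
        nlinarith
      exact mul_le_mul h12 hs1 hs0 (by positivity)
    have h13 : (4 / (R : ℝ) * ∑ h ∈ Icc 1 L, ∑ j ∈ range (p / L + 1), rho B L j h) ^ 2 ≤
        (96 * N / p * B.card) ^ 2 := pow_le_pow_left₀ (by positivity) h11 2
    calc (p : ℝ) * (4 / (R : ℝ) * ∑ h ∈ Icc 1 L, ∑ j ∈ range (p / L + 1), rho B L j h) ^ 2
        ≤ p * (96 * N / p * B.card) ^ 2 := by gcongr
      _ = 9216 * (N : ℝ) ^ 2 * (B.card : ℝ) ^ 2 / p := by field_simp; ring
      _ ≤ 10 ^ 4 * (N : ℝ) ^ 2 * (B.card : ℝ) ^ 2 / p := by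
          gcongr
          norm_num
  -- second term
  have hFFle : ∀ h y, FF B L R h y ≤ 1000 * N / L := by
    intro h y
    rw [le_div_iff₀ hLpos]
    have h14 := h2 p N L R y hL hLN (by omega) hpR
    have h15 : FF B L R h y ≤ ∑ j ∈ range (p / L + 1), wf R (y - ((j * L : ℕ) : ZMod p)) := by
      unfold FF
      refine Finset.sum_le_sum fun j _ => ?_
      have h16 := (hbR.1 j h).2
      have h17 := COL68_wf_nonneg (p := p) R (y - ((j * L : ℕ) : ZMod p))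
      nlinarith
    calc FF B L R h y * L ≤ (∑ j ∈ range (p / L + 1), wf R (y - ((j * L : ℕ) : ZMod p))) * L := by gcongr
      _ ≤ 1000 * N := by rw [mul_comm]; exact h14
  have hFFsum : ∀ h, ∑ y : ZMod p, FF B L R h y ≤ 96 * N * ∑ j ∈ range (p / L + 1), rho B L j h := by
    intro h
    unfold FF
    rw [Finset.sum_comm, Finset.mul_sum]
    refine Finset.sum_le_sum fun j _ => ?_
    rw [← Finset.mul_sum]
    have e3 : ∑ y : ZMod p, wf R (y - ((j * L : ℕ) : ZMod p)) = ∑ y : ZMod p, wf R y :=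
      Equiv.sum_comp (Equiv.subRight (((j * L : ℕ) : ZMod p))) (fun y => wf R y)
    rw [e3, h3 p R (by omega) hRlep, mul_comm]
    have h18 : 4 * (p : ℝ) / R ≤ 96 * N := by
      rw [div_le_iff₀ hRpos]; nlinarith
    exact mul_le_mul_of_nonneg_right h18 (hbR.1 j h).1
  have hF2 : (p : ℝ) * (T * ∑ h ∈ Icc 1 L, ∑ f ∈ Ioo (-(R : ℤ)) R, ‖a h f‖ ^ 2) ≤
      10 ^ 5 * T * (N : ℝ) ^ 2 * B.card / L := by
    have e4 : (p : ℝ) * (T * ∑ h ∈ Icc 1 L, ∑ f ∈ Ioo (-(R : ℤ)) R, ‖a h f‖ ^ 2) =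
        T * ∑ h ∈ Icc 1 L, ∑ y : ZMod p, FF B L R h y ^ 2 := by
      rw [← Finset.sum_congr rfl (fun h _ => hapar h), ← Finset.mul_sum]
      ring
    rw [e4]
    have h19 : ∑ h ∈ Icc 1 L, ∑ y : ZMod p, FF B L R h y ^ 2 ≤ 1000 * N / L * (96 * N * B.card) := by
      calc ∑ h ∈ Icc 1 L, ∑ y : ZMod p, FF B L R h y ^ 2
          ≤ ∑ h ∈ Icc 1 L, ∑ y : ZMod p, 1000 * N / L * FF B L R h y := by
            refine Finset.sum_le_sum fun h _ => Finset.sum_le_sum fun y _ => ?_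
            rw [sq]
            exact mul_le_mul_of_nonneg_right (hFFle h y) (COL68_FF_nonneg h5 B L R h hL y)
        _ = 1000 * N / L * ∑ h ∈ Icc 1 L, ∑ y : ZMod p, FF B L R h y := by
            rw [Finset.mul_sum]
            refine Finset.sum_congr rfl fun h _ => ?_
            rw [Finset.mul_sum]
        _ ≤ 1000 * N / L * ∑ h ∈ Icc 1 L, 96 * N * ∑ j ∈ range (p / L + 1), rho B L j h := by
            gcongr with h hh
            exact hFFsum h
        _ = 1000 * N / L * (96 * N * ∑ h ∈ Icc 1 L, ∑ j ∈ range (p / L + 1), rho B L j h) := by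
            rw [← Finset.mul_sum]
        _ ≤ 1000 * N / L * (96 * N * B.card) := by
            gcongr
            exact hbR.2
    calc (T : ℝ) * ∑ h ∈ Icc 1 L, ∑ y : ZMod p, FF B L R h y ^ 2
        ≤ T * (1000 * N / L * (96 * N * B.card)) := by gcongr
      _ = 96000 * (T * (N : ℝ) ^ 2 * B.card / L) := by ring
      _ ≤ 10 ^ 5 * (T * (N : ℝ) ^ 2 * B.card / L) := by
          gcongr
          norm_num
      _ = 10 ^ 5 * T * (N : ℝ) ^ 2 * B.card / L := by ring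
  calc ∑ x : ZMod p, nu B N L x ^ 2
      ≤ ∑ x : ZMod p,
        ‖∑ h ∈ Icc 1 L, ∑ f ∈ Ioo (-(R : ℤ)) R, a h f * ps ((h : ZMod p) * (f : ZMod p) * x)‖ ^ 2 :=
        Finset.sum_le_sum fun x _ => hpt x
    _ ≤ p * (‖∑ h ∈ Icc 1 L, a h 0‖ ^ 2 + T * ∑ h ∈ Icc 1 L, ∑ f ∈ Ioo (-(R : ℤ)) R, ‖a h f‖ ^ 2) := hd
    _ = p * ‖∑ h ∈ Icc 1 L, a h 0‖ ^ 2 + p * (T * ∑ h ∈ Icc 1 L, ∑ f ∈ Ioo (-(R : ℤ)) R, ‖a h f‖ ^ 2) := by
        ring
    _ ≤ _ := add_le_add hF1 hF2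

end Pool.Agent.PY2
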